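import Pool.Agent.P.MP_5f6af4_co.LO.Core
import Pool.Agent.P.MP_5f6af4_co.Sp.App

/-! The multiplier theorem for elements of large order. -/

set_option autoImplicit false
set_option linter.unusedSectionVars false

namespace Pool.Agent.P.MP_5f6af4_co.LO

open Finset ComplexConjugate

variable {v : ℕ} [NeZero v]

lemma big_of (t F : ℕ) (htv : Nat.Coprime t v)
    (h : ∀ r : ℕ, r.Prime → r ∣ v → F < orderOf (t : ZMod r)) : Big (t : ZMod v) F := by
  refine ⟨(ZMod.isUnit_iff_coprime t v).2 htv, fun i h1 h2 => ?_⟩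
  rw [← Nat.cast_pow]
  refine unit_sub_one _ fun r hr hrv => ?_
  have h3 := h r hr hrv
  rw [Nat.cast_pow]
  have h4 : 0 < orderOf ((t : ZMod r) ^ i) :=
    ((orderOf_pos_iff.1 (by omega)).pow (n := i)).orderOf_pos
  have h5 : orderOf ((t : ZMod r) ^ i) ≠ 1 := fun e => by
    have := Nat.le_of_dvd h1 (orderOf_dvd_of_pow_eq_one (orderOf_eq_one_iff.1 e))
    omega
  omega

/-- primes of large order divide -/
lemma dvd_of_big {U : GR (ZMod v)} {s q F : ℕ} (hq : q.Prime) (hqs : q ∣ s) (hqv : ¬ q ∣ v)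
    (hU : U * cj U = (((s : ℤ) ^ 2 : ℤ) : GR (ZMod v))) (hF : s ^ 4 ≤ F)
    (hb : Big (q : ZMod v) F) (a : ZMod v) : (q : ℤ) ∣ U.coeff a := by
  by_contra ha
  have hq' : Prime (q : ℤ) := Nat.prime_iff_prime_int.1 hq
  set S := univ.filter fun g => U.coeff g ≠ 0 with hS
  have hc : S.card ≤ s ^ 2 := by
    have := card_supp hU (c := 1) fun _ => one_dvd _
    rw [one_pow, mul_one] at this
    exact_mod_cast this
  obtain ⟨j, hj⟩ := hb.avoid ((S ×ˢ S).image fun p => (p.1 - a, p.2 - a)) (card_image_le.trans (by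
    rw [card_product]
    exact ((Nat.mul_le_mul hc hc).trans_eq (by ring)).trans hF))
  have h1 := basic_cong q hq hqv U ((s : ℤ) ^ 2) 0 (by rw [hU]; simp) 1
    (by rw [pow_one]; exact Dvd.dvd.pow (by exact_mod_cast hqs) two_ne_zero) j
    ((q : ZMod v) ^ j * a - a)
  have hinj : Function.Injective (AddMonoidHom.mulLeft ((q : ZMod v) ^ j)) :=
    fun _ _ e => (hb.unit.pow j).mul_left_cancel e
  rw [pow_one, Int.cast_zero, zero_mul, sub_zero, coeff_mul_cj,
    ← (Equiv.ofBijective _ (Finite.injective_iff_bijective.1 hinj)).sum_comp,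
    Finset.sum_eq_single_of_mem a (mem_univ a)] at h1
  · simp only [Equiv.ofBijective_apply, mu, coeff_push_inj hinj] at h1
    rw [AddMonoidHom.coe_mulLeft, sub_sub_cancel] at h1
    exact ha ((hq'.dvd_or_dvd h1).elim id id)
  · intro x _ hx
    simp only [Equiv.ofBijective_apply, mu, coeff_push_inj hinj]
    rw [AddMonoidHom.coe_mulLeft]
    by_contra hne
    exact hx (sub_eq_zero.1 (hj (x - a, (q : ZMod v) ^ j * x - ((q : ZMod v) ^ j * a - a) - a)
      (mem_image.2 ⟨(x, _), mem_product.2 ⟨by simpa [hS] using left_ne_zero_of_mul hne,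
        by simpa [hS] using right_ne_zero_of_mul hne⟩, rfl⟩) (by ring)))

/-- the primitive part -/
lemma prim {V : GR (ZMod v)} {m : ℕ} (hm : 0 < m)
    (h1 : V * cj V = (((m : ℤ) ^ 2 : ℤ) : GR (ZMod v))) (h2 : aug V = m)
    (h3 : ∀ a b, (m : ℤ) ∣ V.coeff a * V.coeff b) : ∃ (c s : ℕ) (U : GR (ZMod v)), m = c * s ∧
      s ^ 2 ∣ m ∧ V = ((c : ℤ) : GR (ZMod v)) * U ∧
      U * cj U = (((s : ℤ) ^ 2 : ℤ) : GR (ZMod v)) ∧ aug U = s ∧
      ∀ q : ℕ, q.Prime → ¬ ∀ a, (q : ℤ) ∣ U.coeff a := by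
  set c := univ.gcd fun a => (V.coeff a).natAbs with hc
  have d1 : ∀ a, (c : ℤ) ∣ V.coeff a := fun a =>
    Int.natCast_dvd.2 (Finset.gcd_dvd (f := fun a => (V.coeff a).natAbs) (mem_univ a))
  obtain ⟨s, hs⟩ : c ∣ m := by
    rw [← Int.natCast_dvd_natCast, ← h2, aug_eq]
    exact Finset.dvd_sum fun a _ => d1 a
  have c0 : c ≠ 0 := left_ne_zero_of_mul (hs ▸ hm.ne')
  have c0' : (c : ℤ) ≠ 0 := by exact_mod_cast c0
  have d2 : m ∣ c * c := by
    have e : ∀ y : ℕ, (univ.gcd fun a => y * (V.coeff a).natAbs) = y * c := fun y => by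
      rw [Finset.gcd_mul_left, normalize_eq]
    rw [← e c]
    refine Finset.dvd_gcd fun a _ => ?_
    rw [mul_comm, ← e]
    refine Finset.dvd_gcd fun b _ => ?_
    rw [← Int.natAbs_mul]
    exact Int.natCast_dvd.1 (h3 a b)
  obtain ⟨U, hU⟩ := exists_of_dvd _ _ d1
  refine ⟨c, s, U, hs, ?_, hU, ?_, ?_, fun q hq hd => ?_⟩
  · rw [hs] at d2 ⊢
    rw [sq]
    exact Nat.mul_dvd_mul_right (Nat.dvd_of_mul_dvd_mul_left (Nat.pos_of_ne_zero c0) d2) s
  · apply intCast_mul_cancel (pow_ne_zero 2 c0')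
    rw [hU, map_mul, map_intCast, hs] at h1
    push_cast at h1 ⊢
    linear_combination h1
  · rw [hU, map_mul, map_intCast, Int.cast_id, hs] at h2
    exact mul_left_cancel₀ c0' (by exact_mod_cast h2)
  · have : c * q ∣ c * 1 := by
      conv_rhs => rw [mul_one, hc]
      refine Finset.dvd_gcd fun a _ => Int.natCast_dvd.1 ?_
      rw [hU, coeff_intCast_mul]
      push_cast
      exact mul_dvd_mul_left _ (hd a)
    exact hq.one_lt.ne' (Nat.dvd_one.1 (Nat.dvd_of_mul_dvd_mul_left (Nat.pos_of_ne_zero c0) this))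

theorem mult : ∃ C : ℕ, ∀ (v k lam n1 m t : ℕ) [NeZero v] (D : Finset (ZMod v)),
    D.card = k →
    (∀ d : ZMod v, d ≠ 0 → ((D ×ˢ D).filter (fun x => x.1 - x.2 = d)).card = lam) →
    k = lam + n1 * m → 2 ≤ n1 * m → Nat.Coprime n1 v → Nat.Coprime t v →
    (∀ r : ℕ, r.Prime → r ∣ v → (2 * m) ^ 64 < orderOf (t : ZMod r)) →
    (∀ s : ℕ, s ^ 2 ∣ m →
      (∀ q : ℕ, q.Prime → q ∣ s → ∃ r : ℕ, r.Prime ∧ r ∣ v ∧ orderOf (q : ZMod r) ≤ m ^ 2) →
      ∀ r : ℕ, r.Prime → r ∣ v → s ^ (C * s) < r) →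
    (∀ u : ℕ, u.Prime → u ∣ n1 → ∃ (j : ℕ) (g : ZMod v),
      D.image (fun x => (t : ZMod v) * x) = D.image (fun x => (u : ZMod v) ^ j * x + g)) →
    ∃ g : ZMod v, D.image (fun x => (t : ZMod v) * x) = D.image (fun x => x + g) := by
  obtain ⟨C, hC⟩ := Sp.sparse
  refine ⟨C, fun v k lam n1 m t _ D hk hD hn h2 hn1v htv ho hs ht => ?_⟩
  have hn1 : n1 ≠ 0 := by rintro rfl; simp at h2
  have hm : 0 < m := Nat.pos_of_ne_zero (by rintro rfl; simp at h2)
  have hn1' : (n1 : ℤ) ≠ 0 := by exact_mod_cast hn1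
  have hm' : (m : ℤ) ≠ 0 := by exact_mod_cast hm.ne'
  have hb := big_of t _ htv ho
  have htu := hb.unit
  set X := ind D with hX
  have hDS : DS X ((n1 : ℤ) * m) lam := by
    have := DS_of D (n1 * m) lam (hk.trans hn) hD
    simpa using this
  have hex : ∀ i : ℕ, ∃ E : GR (ZMod v), mu ((t : ZMod v) ^ i) X * cj X -
      ((lam : ℤ) : GR (ZMod v)) * allG _ = ((n1 : ℤ) : GR (ZMod v)) * E := fun i => by
    apply exists_of_dvd
    intro g
    apply dvd_of_primes
    intro u hu hun a ha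
    have huc := Nat.Coprime.coprime_dvd_left hun hn1v
    obtain ⟨j, g', hj⟩ := ht u hu hun
    apply cong_of_tr ((tr_of_image htu (((ZMod.isUnit_iff_coprime u v).mpr huc).pow _) hj).pow i)
    intro g''
    rw [← pow_mul]
    apply basic_cong u hu ((Nat.Prime.coprime_iff_not_dvd hu).mp huc) X _ _ hDS.eq
    exact Dvd.dvd.mul_right (by exact_mod_cast ha) _
  choose E hE using hex
  have hco : Coc (t : ZMod v) m ((2 * m) ^ 64) E := ⟨hb, hm,
    fun i => (E_props hn1' (hDS.map (htu.pow i)) hDS (hE i)).1,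
    fun i => (E_props hn1' (hDS.map (htu.pow i)) hDS (hE i)).2, fun i j => by
      have h4 := F_mul (hDS.map (htu.pow (i + j))) (hDS.map (htu.pow j)) hDS
      have h5 := congrArg (mu ((t : ZMod v) ^ j)) (hE i)
      simp only [map_sub, map_mul, map_intCast, mu_cj, mu_allG (htu.pow j), mu_mu,
        ← pow_add] at h5
      rw [add_comm i j, h5, hE j, add_comm j i, hE (i + j)] at h4
      apply intCast_mul_cancel (pow_ne_zero 2 hn1')
      push_cast at h4 ⊢
      linear_combination h4⟩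
  obtain ⟨V, v1, v2, v3, v4⟩ := hco.main le_rfl
  obtain ⟨c, s, U, u1, u2, u3, u4, u5, u6⟩ := prim hm v1 v2 v3
  have s0 : 0 < s := Nat.pos_of_ne_zero (right_ne_zero_of_mul (u1 ▸ hm.ne'))
  have hr := hs s u2 fun q hq hqs => by
    by_contra hc
    push Not at hc
    have hqv : ¬ q ∣ v := fun e => by
      have := hc q hq e
      have : Fact q.Prime := ⟨hq⟩
      simp at *
    refine u6 q hq (dvd_of_big hq hqs hqv u4 (F := m ^ 2) ?_
      (big_of q _ ((Nat.Prime.coprime_iff_not_dvd hq).2 hqv) hc))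
    exact (by ring : s ^ 4 = (s ^ 2) ^ 2).trans_le (Nat.pow_le_pow_left (Nat.le_of_dvd hm u2) 2)
  have one := hC (ZMod v) (fun g => (U.coeff g : ℂ)) s (fun d hd => by
      have := congrArg (fun Z : GR (ZMod v) => Z.coeff d) u4
      simp only [coeff_mul_cj, coeff_intCast, if_neg hd.symm] at this
      simp only [map_intCast]
      exact_mod_cast this)
    (by
      have := card_supp u4 (c := 1) fun _ => one_dvd _
      rw [one_pow, mul_one] at this
      simp only [ne_eq, Int.cast_eq_zero]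
      exact_mod_cast this)
    fun N hN hN' x hx => by
      have h1 : N ≤ s ^ (C * s) := by exact_mod_cast hN'
      have h3 := (ZMod.isUnit_iff_coprime N v).mpr (Nat.coprime_of_dvd fun r hr' h4 h5 => by
        have := hr r hr' h5
        have := Nat.le_of_dvd hN h4
        omega)
      rw [nsmul_eq_mul] at hx
      exact h3.mul_right_eq_zero.mp hx
  obtain ⟨g, -, hg⟩ := Finset.exists_ne_zero_of_sum_ne_zero (s := univ) (f := U.coeff) (by
    rw [← aug_eq, u5]
    exact_mod_cast s0.ne')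
  have hz : ∀ x, x ≠ g → U.coeff x = 0 := fun x hx => by
    by_contra hc
    exact hx (one x g (by exact_mod_cast hc) (by exact_mod_cast hg))
  have hUg : U = ((s : ℤ) : GR (ZMod v)) * el g := ext_coeff fun x => by
    rw [coeff_intCast_mul, coeff_el]
    split_ifs with e
    · rw [← e, mul_one, ← u5, aug_eq, Finset.sum_eq_single_of_mem g (mem_univ g)
        fun x _ hx => hz x hx]
    · rw [hz x (Ne.symm e), mul_zero]
  have hW : E 1 = ((m : ℤ) : GR (ZMod v)) * el (t * g + -g) := by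
    apply intCast_mul_cancel hm'
    rw [v4, u3, hUg, el_add]
    simp only [map_mul, map_intCast, mu_el, cj_el]
    rw [u1]
    push_cast
    ring
  refine image_of_tr htu ⟨t * g + -g, ?_⟩
  apply intCast_mul_cancel (c := (n1 : ℤ) * m) (mul_ne_zero hn1' hm')
  have h1 := hDS.eq
  have h3 := mul_allG X
  have h4 := mul_allG (mu (t : ZMod v) X)
  have h5 := hE 1
  rw [aug_mu] at h4
  rw [hW, pow_one] at h5
  push_cast at h5 h1 ⊢
  linear_combination X * h5 - mu (t : ZMod v) X * h1 + (lam : GR (ZMod v)) * h3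
    - (lam : GR (ZMod v)) * h4

end Pool.Agent.P.MP_5f6af4_co.LO
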