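import Pool.Agent.P.MP_5f6af4_co.LO.Lift

/-! Sparse cocycles of a cyclic group of large order are coboundaries. -/

set_option autoImplicit false
set_option linter.unusedSectionVars false

namespace Pool.Agent.P.MP_5f6af4_co.LO

open Finset Pointwise

variable {v : ℕ} [NeZero v]

/-- large order -/
structure Big (t : ZMod v) (F : ℕ) : Prop where
  unit : IsUnit t
  ord : ∀ i, 0 < i → i ≤ F → IsUnit (t ^ i - 1)

/-- a cocycle -/
structure Coc (t : ZMod v) (m F : ℕ) (E : ℕ → GR (ZMod v)) : Prop extends Big t F where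
  pos : 0 < m
  flat : ∀ i, E i * cj (E i) = (((m : ℤ) ^ 2 : ℤ) : GR (ZMod v))
  au : ∀ i, aug (E i) = m
  co : ∀ i j, mu (t ^ j) (E i) * E j = ((m : ℤ) : GR (ZMod v)) * E (i + j)

variable {t : ZMod v} {m F : ℕ} {E : ℕ → GR (ZMod v)}

lemma Big.diff (h : Big t F) {i j : ℕ} (hi : i ≤ F) (hj : j ≤ F) (hne : i ≠ j) :
    IsUnit (t ^ i - t ^ j) := by
  wlog c : j < i generalizing i j
  · rw [← IsUnit.neg_iff, neg_sub]
    exact this hj hi hne.symm (by omega)
  obtain ⟨d, rfl⟩ := Nat.exists_eq_add_of_le c.le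
  rw [show t ^ (j + d) - t ^ j = t ^ j * (t ^ d - 1) by ring]
  exact (h.unit.pow j).mul (h.ord d (by omega) (by omega))

lemma Big.avoid (h : Big t F) (P : Finset (ZMod v × ZMod v)) (hP : P.card ≤ F) :
    ∃ j, ∀ p ∈ P, t ^ j * p.1 = p.2 → p.1 = 0 := by
  by_contra hc
  push Not at hc
  choose p h1 h2 h3 using hc
  obtain ⟨i, hi, j, hj, hne, e⟩ := Finset.exists_ne_map_eq_of_card_lt_of_maps_to
    (s := range (F + 1)) (t := P) (by rw [card_range]; omega) (f := p) fun i _ => h1 i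
  refine h3 i ((h.diff (Nat.lt_succ_iff.1 (mem_range.1 hi)) (Nat.lt_succ_iff.1 (mem_range.1 hj))
    hne).mul_right_eq_zero.1 ?_)
  rw [sub_mul, h2 i, e, h2 j, sub_self]

lemma Coc.supp (h : Coc t m F E) (hF : m ^ 2 ≤ F) : ∃ A : Finset (ZMod v), 0 ∈ A ∧
    A.card ≤ 17 * m ^ 8 ∧ ∀ s a, (E s).coeff a ≠ 0 → ∃ α ∈ A, ∃ β ∈ A, t ^ s * α + β = a := by
  have hm := h.pos
  set B : ℕ → Finset (ZMod v) := fun i => univ.filter fun g => (E i).coeff g ≠ 0 with hB
  have hc : ∀ i, (B i).card ≤ m ^ 2 := fun i => by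
    have := card_supp (h.flat i) (c := 1) fun _ => one_dvd _
    rw [one_pow, mul_one] at this
    exact_mod_cast this
  refine ⟨insert 0 ((range (m ^ 2 + 1) ×ˢ range (m ^ 2 + 1)).biUnion fun p =>
    ((B p.1 ∪ B p.2) ×ˢ (B p.1 ∪ B p.2)).image fun b => (b.1 - b.2) * (t ^ p.1 - t ^ p.2)⁻¹),
    mem_insert_self _ _, ?_, fun s a ha => ?_⟩
  · refine (card_insert_le _ _).trans ?_
    have h1 := card_biUnion_le_card_mul (range (m ^ 2 + 1) ×ˢ range (m ^ 2 + 1)) (fun p =>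
      ((B p.1 ∪ B p.2) ×ˢ (B p.1 ∪ B p.2)).image fun b => (b.1 - b.2) * (t ^ p.1 - t ^ p.2)⁻¹)
      ((2 * m ^ 2) * (2 * m ^ 2)) fun p _ => by
        have : (B p.1 ∪ B p.2).card ≤ 2 * m ^ 2 := by
          have := card_union_le (B p.1) (B p.2)
          have := hc p.1
          have := hc p.2
          omega
        exact card_image_le.trans (by rw [card_product]; exact Nat.mul_le_mul this this)
    rw [card_product, card_range] at h1
    have h2 : m ^ 2 + 1 ≤ 2 * m ^ 2 := by have := pow_pos hm 2; omega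
    have h3 := h1.trans (Nat.mul_le_mul_right _ (Nat.mul_le_mul h2 h2))
    have h4 : 2 * m ^ 2 * (2 * m ^ 2) * (2 * m ^ 2 * (2 * m ^ 2)) = 16 * m ^ 8 := by ring
    have := pow_pos hm 8
    omega
  · have key : ∀ i, ∃ b ∈ B i, ∃ a' ∈ B s, ∃ b' ∈ B i, t ^ i * a = t ^ s * b + a' - b' := by
      intro i
      have h1 : (((m : ℤ) ^ 2 : ℤ) : GR (ZMod v)) * mu (t ^ i) (E s) =
          mu (t ^ s) (E i) * E s * cj (E i) := by
        rw [← h.flat i, h.co i s, add_comm i s, ← h.co s i]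
        ring
      have h2 : In (mu (t ^ s) (E i) * E s * cj (E i)) _ :=
        ((In.push (fun _ => id) _).mul fun _ => id).mul (In.push (fun _ => id) _)
      obtain ⟨-, -, ⟨-, a', ⟨b, b1, rfl⟩, a1, rfl⟩, ⟨b', b2, rfl⟩, e⟩ := h2 (t ^ i * a) (by
        rw [← h1, coeff_intCast_mul]
        refine mul_ne_zero (by positivity) ?_
        exact (coeff_push_inj (φ := AddMonoidHom.mulLeft (t ^ i))
          (fun _ _ e => (h.unit.pow i).mul_left_cancel e) (E s) a).symm ▸ ha)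
      exact ⟨b, by simpa [hB] using b1, a', by simpa [hB] using a1, b', by simpa [hB] using b2,
        by simpa [sub_eq_add_neg] using e⟩
    choose b b1 a' a1 b' b2 e using key
    obtain ⟨i, hi, j, hj, hne, e'⟩ := Finset.exists_ne_map_eq_of_card_lt_of_maps_to
      (s := range (m ^ 2 + 1)) (t := B s) (by rw [card_range]; exact Nat.lt_succ_of_le (hc s))
      (f := a') fun i _ => a1 i
    have hu := ZMod.mul_inv_of_unit _ (h.toBig.diff ((Nat.lt_succ_iff.1 (mem_range.1 hi)).trans hF)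
      ((Nat.lt_succ_iff.1 (mem_range.1 hj)).trans hF) hne)
    refine ⟨(b i - b j) * (t ^ i - t ^ j)⁻¹, ?_, (b' j - b' i) * (t ^ i - t ^ j)⁻¹, ?_, ?_⟩
    · exact mem_insert_of_mem (mem_biUnion.2 ⟨(i, j), mem_product.2 ⟨hi, hj⟩, mem_image.2
        ⟨(b i, b j), mem_product.2 ⟨mem_union_left _ (b1 i), mem_union_right _ (b1 j)⟩, rfl⟩⟩)
    · exact mem_insert_of_mem (mem_biUnion.2 ⟨(i, j), mem_product.2 ⟨hi, hj⟩, mem_image.2
        ⟨(b' j, b' i), mem_product.2 ⟨mem_union_right _ (b2 j), mem_union_left _ (b2 i)⟩, rfl⟩⟩)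
    · linear_combination a * hu - (t ^ i - t ^ j)⁻¹ * (e i - e j + e')

lemma pp {G H K : Type} [AddCommGroup G] [AddCommGroup H] [AddCommGroup K] {φ : G →+ H}
    {ψ : H →+ K} (χ : G →+ K) (h : ∀ g, ψ (φ g) = χ g) (X : GR G) :
    push ψ (push φ X) = push χ X := by
  rw [push_push]
  exact push_congr h X

/-- the map `(x, y) ↦ c x + y` -/
def pr (c : ZMod v) : ZMod v × ZMod v →+ ZMod v :=
  (AddMonoidHom.mulLeft c).coprod (AddMonoidHom.id _)

lemma pr_apply (c : ZMod v) (z : ZMod v × ZMod v) : pr c z = c * z.1 + z.2 := rfl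

section
variable {A : Finset (ZMod v)} {L : ℕ → GR (ZMod v × ZMod v)}

/-- good exponents -/
def Gd (t : ZMod v) (A : Finset (ZMod v)) (i : ℕ) : Prop :=
  ∀ y ∈ A + A - (A + A), ∀ z ∈ A + A - (A + A), t ^ i * y + z = 0 → y = 0

/-- good pairs of exponents -/
def Gp (t : ZMod v) (A : Finset (ZMod v)) (i j : ℕ) : Prop :=
  ∀ x ∈ A - A, ∀ y ∈ A + A - (A + A), ∀ z ∈ A - A, t ^ (j + i) * x + (t ^ i * y + z) = 0 → x = 0

lemma Coc.flatL (h : Coc t m F E) (h1 : ∀ s, In (L s) fun z => z.1 ∈ A ∧ z.2 ∈ A)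
    (h2 : ∀ s, push (pr (t ^ s)) (L s) = E s) (h0 : 0 ∈ A) {i : ℕ} (hi : Gd t A i) :
    push (AddMonoidHom.fst _ _) (L i) * cj (push (AddMonoidHom.fst _ _) (L i)) =
      (((m : ℤ) ^ 2 : ℤ) : GR (ZMod v)) := by
  have h3 : L i * cj (L i) = (((m : ℤ) ^ 2 : ℤ) : GR (ZMod v × ZMod v)) := by
    refine eq_of_push (S := fun z => ∃ p q : ZMod v × ZMod v, (p.1 ∈ A ∧ p.2 ∈ A) ∧
      (q.1 ∈ A ∧ q.2 ∈ A) ∧ z = p - q) (((h1 i).mul ((h1 i).push _)).mono ?_)
      ((in_const _).mono ?_) (pr (t ^ i)) ?_ ?_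
    · rintro - ⟨p, -, hp, ⟨q, hq, rfl⟩, rfl⟩
      exact ⟨p, q, hp, hq, by simp [sub_eq_add_neg]⟩
    · rintro - rfl
      exact ⟨0, 0, ⟨h0, h0⟩, ⟨h0, h0⟩, by simp⟩
    · rintro - - ⟨p, q, hp, hq, rfl⟩ ⟨p', q', hp', hq', rfl⟩ e
      simp only [pr_apply, Prod.fst_sub, Prod.snd_sub] at e
      have e1 := hi _ (sub_mem_sub (add_mem_add hp.1 hq'.1) (add_mem_add hp'.1 hq.1)) _
        (sub_mem_sub (add_mem_add hp.2 hq'.2) (add_mem_add hp'.2 hq.2)) (by linear_combination e)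
      refine Prod.ext ?_ ?_
      · simp only [Prod.fst_sub]
        linear_combination e1
      · simp only [Prod.snd_sub]
        linear_combination e - t ^ i * e1
    · rw [map_mul, push_cj, h2, h.flat, map_intCast]
  rw [← push_cj, ← map_mul, h3, map_intCast]

lemma Coc.pair (h : Coc t m F E) (h1 : ∀ s, In (L s) fun z => z.1 ∈ A ∧ z.2 ∈ A)
    (h2 : ∀ s, push (pr (t ^ s)) (L s) = E s) (h0 : 0 ∈ A) {i j : ℕ} (hi : Gd t A i)
    (hj : Gp t A i j) :
    push (AddMonoidHom.snd _ _) (L j) = cj (push (AddMonoidHom.fst _ _) (L i)) ∧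
    ((m : ℤ) : GR (ZMod v × ZMod v)) * L j =
      push (AddMonoidHom.inl _ _) (push (AddMonoidHom.fst _ _) (L j)) *
        push (AddMonoidHom.inr _ _) (cj (push (AddMonoidHom.fst _ _) (L i))) := by
  have hm : (m : ℤ) ≠ 0 := by exact_mod_cast h.pos.ne'
  have ha : ∀ s, aug (L s) = m := fun s => by rw [← aug_push (pr (t ^ s)), h2, h.au]
  let f := AddMonoidHom.fst (ZMod v) (ZMod v)
  let g := AddMonoidHom.snd (ZMod v) (ZMod v)
  have key : push (f.prod (g.prod 0)) (L j) * push (AddMonoidHom.inr (ZMod v) _) (L i) =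
      ((m : ℤ) : GR (ZMod v × ZMod v × ZMod v)) *
        push (f.prod ((0 : _ →+ ZMod v).prod g)) (L (j + i)) := by
    refine eq_of_push (S := fun z => z.1 ∈ A ∧ z.2.1 ∈ A + A ∧ z.2.2 ∈ A)
      ((((h1 j).push _).mul ((h1 i).push _)).mono ?_) ((((h1 _).push _).cmul _).mono ?_)
      ((AddMonoidHom.mulLeft (t ^ (j + i))).coprod (pr (t ^ i))) ?_ ?_
    · rintro - ⟨-, -, ⟨p, hp, rfl⟩, ⟨q, hq, rfl⟩, rfl⟩
      exact ⟨by simpa [f] using hp.1, by simpa [g] using add_mem_add hp.2 hq.1,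
        by simpa using hq.2⟩
    · rintro - ⟨p, hp, rfl⟩
      exact ⟨hp.1, by simpa using add_mem_add h0 h0, hp.2⟩
    · rintro p q hp hq e
      change t ^ (j + i) * p.1 + (t ^ i * p.2.1 + p.2.2) =
        t ^ (j + i) * q.1 + (t ^ i * q.2.1 + q.2.2) at e
      have e1 := hj _ (sub_mem_sub hp.1 hq.1) _ (sub_mem_sub hp.2.1 hq.2.1) _
        (sub_mem_sub hp.2.2 hq.2.2) (by linear_combination e)
      have e2 := hi _ (sub_mem_sub hp.2.1 hq.2.1) _
        (sub_mem_sub (add_mem_add hp.2.2 h0) (add_mem_add hq.2.2 h0))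
        (by linear_combination e - t ^ (j + i) * e1)
      refine Prod.ext (sub_eq_zero.1 e1) (Prod.ext (sub_eq_zero.1 e2) ?_)
      linear_combination e - t ^ (j + i) * e1 - t ^ i * e2
    · rw [map_mul, map_mul, map_intCast,
        pp ((AddMonoidHom.mulLeft (t ^ i)).comp (pr (t ^ j))) (fun z => by
          change t ^ (j + i) * z.1 + (t ^ i * z.2 + 0) = t ^ i * (t ^ j * z.1 + z.2)
          ring), ← push_push, h2, pp (pr (t ^ i)) (fun z => by simp), h2,
        pp (pr (t ^ (j + i))) (fun z => by simp [pr_apply, f, g]), h2, ← h.co, mu]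
  have k1 := congrArg (push (AddMonoidHom.fst _ _)) key
  rw [map_mul, map_mul, map_intCast, pp f (fun z => rfl), pp 0 (fun z => rfl),
    push_zero (φ := 0) (fun _ => rfl), pp f (fun z => rfl), ha, mul_comm] at k1
  replace k1 := intCast_mul_cancel hm k1
  have k2 := congrArg (push (f.comp (AddMonoidHom.snd (ZMod v) _))) key
  rw [map_mul, map_mul, map_intCast, pp g (fun z => rfl), pp f (fun z => rfl),
    pp 0 (fun z => rfl), push_zero (φ := 0) (fun _ => rfl), ha] at k2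
  have k3 := congrArg (push ((AddMonoidHom.id (ZMod v)).prodMap f)) key
  rw [map_mul, map_mul, map_intCast, pp (AddMonoidHom.id _) (fun z => rfl),
    push_id' (fun _ => rfl), pp ((AddMonoidHom.inr _ _).comp f) (fun z => rfl),
    pp ((AddMonoidHom.inl _ _).comp f) (fun z => rfl), ← push_push, ← push_push, ← k1] at k3
  have k4 := h.flatL h1 h2 h0 hi
  have k5 := congrArg (push (AddMonoidHom.inr (ZMod v) (ZMod v))) k4
  rw [map_mul, map_intCast] at k5
  refine ⟨intCast_mul_cancel (pow_ne_zero 2 hm) ?_, intCast_mul_cancel hm ?_⟩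
  · push_cast at k2 k4 ⊢
    linear_combination cj (push f (L i)) * k2 - push g (L j) * k4
  · push_cast at k3 k5 ⊢
    linear_combination push (AddMonoidHom.inr _ _) (cj (push f (L i))) * k3 - L j * k5

end

theorem Coc.main (h : Coc t m F E) (hF : (2 * m) ^ 64 ≤ F) : ∃ V : GR (ZMod v),
    V * cj V = (((m : ℤ) ^ 2 : ℤ) : GR (ZMod v)) ∧ aug V = m ∧
    (∀ a b, (m : ℤ) ∣ V.coeff a * V.coeff b) ∧
    ((m : ℤ) : GR (ZMod v)) * E 1 = mu t V * cj V := by
  have hm0 := h.pos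
  have hm : (m : ℤ) ≠ 0 := by exact_mod_cast hm0.ne'
  obtain ⟨A, h0, hA, hs⟩ := h.supp (le_trans (le_trans (Nat.pow_le_pow_left (by omega) 2)
    (Nat.pow_le_pow_right (by omega) (by norm_num))) hF)
  choose L h1 h2 using fun s => exists_lift (pr (t ^ s)) (E s) (fun z => z.1 ∈ A ∧ z.2 ∈ A)
    fun a ha => by
      obtain ⟨α, hα, β, hβ, e⟩ := hs s a ha
      exact ⟨(α, β), ⟨hα, hβ⟩, e⟩
  have c1 : (A - A).card ≤ A.card ^ 2 := card_sub_le.trans_eq (sq _).symm
  have c2 : (A + A - (A + A)).card ≤ A.card ^ 4 :=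
    card_sub_le.trans ((Nat.mul_le_mul card_add_le card_add_le).trans_eq (by ring))
  have c3 : 4 * A.card ^ 8 ≤ F := by
    refine le_trans ?_ hF
    calc 4 * A.card ^ 8 ≤ 4 * (17 * m ^ 8) ^ 8 := by gcongr
      _ = (4 * 17 ^ 8) * m ^ 64 := by ring
      _ ≤ 2 ^ 64 * m ^ 64 := Nat.mul_le_mul_right _ (by norm_num)
      _ = _ := (mul_pow _ _ _).symm
  let PG : ℕ → Finset (ZMod v × ZMod v) := fun e =>
    ((A + A - (A + A)) ×ˢ (A + A - (A + A))).image fun p => (t ^ e * p.1, -p.2)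
  let PP : ℕ → ℕ → Finset (ZMod v × ZMod v) := fun i e =>
    ((A - A) ×ˢ (A + A - (A + A)) ×ˢ (A - A)).image
      fun p => (t ^ (e + i) * p.1, -(t ^ i * p.2.1 + p.2.2))
  have g1 : ∀ e, (PG e).card ≤ A.card ^ 8 := fun e => card_image_le.trans (by
    rw [card_product]
    exact (Nat.mul_le_mul c2 c2).trans_eq (by ring))
  have g2 : ∀ i e, (PP i e).card ≤ A.card ^ 8 := fun i e => card_image_le.trans (by
    rw [card_product, card_product]
    exact (Nat.mul_le_mul c1 (Nat.mul_le_mul c2 c1)).trans_eq (by ring))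
  have key : ∀ i i' e e', ∃ j, Gd t A j ∧ Gd t A (j + 1) ∧ Gp t A i (j + e) ∧
      Gp t A i' (j + e') := fun i i' e e' => by
    obtain ⟨j, hj⟩ := h.toBig.avoid (PG 0 ∪ PG 1 ∪ (PP i e ∪ PP i' e')) (by
      have := card_union_le (PG 0 ∪ PG 1) (PP i e ∪ PP i' e')
      have := card_union_le (PG 0) (PG 1)
      have := card_union_le (PP i e) (PP i' e')
      have := g1 0
      have := g1 1
      have := g2 i e
      have := g2 i' e'
      omega)
    have d1 : ∀ e, PG e ⊆ PG 0 ∪ PG 1 ∪ (PP i _ ∪ PP i' e') → Gd t A (j + e) :=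
      fun e he y hy z hz q => (h.unit.pow e).mul_right_eq_zero.1 (hj _ (he (mem_image.2
        ⟨(y, z), mem_product.2 ⟨hy, hz⟩, rfl⟩)) (by linear_combination q))
    have d2 : ∀ i₁ e₁, PP i₁ e₁ ⊆ PG 0 ∪ PG 1 ∪ (PP i e ∪ PP i' e') → Gp t A i₁ (j + e₁) :=
      fun i₁ e₁ he x hx y hy z hz q => (h.unit.pow (e₁ + i₁)).mul_right_eq_zero.1 (hj _ (he
        (mem_image.2 ⟨(x, y, z), mem_product.2 ⟨hx, mem_product.2 ⟨hy, hz⟩⟩, rfl⟩))
          (by linear_combination q))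
    exact ⟨j, d1 0 (subset_union_left.trans subset_union_left),
      d1 1 (subset_union_right.trans subset_union_left),
      d2 _ _ (subset_union_left.trans subset_union_right),
      d2 _ _ (subset_union_right.trans subset_union_right)⟩
  obtain ⟨i, hi, -⟩ := key 0 0 0 0
  set V := push (AddMonoidHom.fst _ _) (L i) with hV
  have ten : ∀ j, Gd t A j → Gp t A i j → ((m : ℤ) : GR (ZMod v × ZMod v)) * L j =
      push (AddMonoidHom.inl _ _) V * push (AddMonoidHom.inr _ _) (cj V) := fun j a b => by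
    obtain ⟨l, -, -, p, q⟩ := key i j 0 0
    have e := congrArg cj ((h.pair h1 h2 h0 a q).1.symm.trans (h.pair h1 h2 h0 hi p).1)
    rw [cj_cj, cj_cj] at e
    rw [(h.pair h1 h2 h0 hi b).2, e]
  have dn : ∀ j, Gd t A j → Gp t A i j →
      ((m : ℤ) : GR (ZMod v)) * E j = mu (t ^ j) V * cj V := fun j a b => by
    have e := congrArg (push (pr (t ^ j))) (ten j a b)
    rwa [map_mul, map_mul, map_intCast, h2, pp (AddMonoidHom.mulLeft (t ^ j))
      (fun z => by simp [pr_apply]), pp (AddMonoidHom.id _) (fun z => by simp [pr_apply]),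
      push_id' (φ := AddMonoidHom.id _) (fun _ => rfl)] at e
  obtain ⟨j, a, a', b, b'⟩ := key i i 0 1
  have hf := h.flatL h1 h2 h0 hi
  rw [← hV] at hf
  refine ⟨V, hf, by rw [hV, aug_push, ← aug_push (pr (t ^ i)), h2, h.au], fun x y => ?_, ?_⟩
  · have e := congrArg (fun Z : GR (ZMod v × ZMod v) => Z.coeff (x, -y)) (ten j a b)
    simp only [coeff_intCast_mul, coeff_tensor, coeff_cj, neg_neg] at e
    exact ⟨_, e.symm⟩
  · have e1 := congrArg (mu t) (dn j a b)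
    have e2 := dn (j + 1) a' b'
    have e3 := h.co j 1
    have e4 := congrArg (mu (t ^ (j + 1))) hf
    have e5 := congrArg (mu t) hf
    rw [map_mul, map_mul, map_intCast, mu_mu, ← pow_succ'] at e1
    rw [map_mul, map_intCast] at e4 e5
    rw [pow_one] at e3
    refine intCast_mul_cancel (pow_ne_zero 4 hm) ?_
    push_cast at e1 e2 e3 e4 e5 ⊢
    linear_combination mu t V * mu (t ^ (j + 1)) (cj V) * ((m : GR (ZMod v)) ^ 2 * e3 +
      (m : GR (ZMod v)) ^ 2 * e2 - (m : GR (ZMod v)) * E 1 * e1) +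
      (m : GR (ZMod v)) ^ 2 * mu t V * cj V * e4 -
      (m : GR (ZMod v)) * E 1 * (mu t V * mu t (cj V)) * e4 - (m : GR (ZMod v)) ^ 3 * E 1 * e5

end Pool.Agent.P.MP_5f6af4_co.LO
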