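import Pool.Agent.P.MP_5f6af4_co.Main

/-! Supports in group rings and lifts along homomorphisms. -/

set_option autoImplicit false
set_option linter.unusedSectionVars false

namespace Pool.Agent.P.MP_5f6af4_co.LO

open Finset

variable {G H : Type} [AddCommGroup G] [Fintype G] [DecidableEq G] [AddCommGroup H] [Fintype H]
  [DecidableEq H]

/-- the support of `X` lies in `S` -/
def In (X : GR G) (S : G → Prop) : Prop := ∀ g, X.coeff g ≠ 0 → S g

lemma In.mono {X : GR G} {S T : G → Prop} (h : In X S) (h' : ∀ g, S g → T g) : In X T :=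
  fun g hg => h' g (h g hg)

lemma In.mul {X Y : GR G} {S T : G → Prop} (h : In X S) (h' : In Y T) :
    In (X * Y) fun g => ∃ a b, S a ∧ T b ∧ g = a + b := fun g hg => by
  rw [coeff_mul'] at hg
  obtain ⟨a, -, ha⟩ := Finset.exists_ne_zero_of_sum_ne_zero hg
  exact ⟨a, -a + g, h a (left_ne_zero_of_mul ha), h' _ (right_ne_zero_of_mul ha), by simp⟩

lemma In.push {X : GR G} {S : G → Prop} (h : In X S) (φ : G →+ H) :
    In (push φ X) fun y => ∃ a, S a ∧ y = φ a := fun y hy => by
  rw [coeff_push] at hy
  obtain ⟨a, h1, ha⟩ := Finset.exists_ne_zero_of_sum_ne_zero hy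
  exact ⟨a, h a ha, (mem_filter.1 h1).2.symm⟩

lemma In.cmul {X : GR G} {S : G → Prop} (h : In X S) (c : ℤ) : In ((c : GR G) * X) S :=
  fun g hg => h g (right_ne_zero_of_mul (by rwa [coeff_intCast_mul] at hg))

lemma in_const (c : ℤ) : In (c : GR G) fun g => g = 0 := fun g hg => by
  rw [coeff_intCast] at hg
  by_contra h
  exact hg (if_neg fun e => h e.symm)

lemma eq_of_push {X Y : GR G} {S : G → Prop} (hX : In X S) (hY : In Y S) (φ : G →+ H)
    (hφ : ∀ a b, S a → S b → φ a = φ b → a = b) (h : push φ X = push φ Y) : X = Y := by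
  refine ext_coeff fun g => ?_
  by_cases hg : S g
  · have key : ∀ Z : GR G, In Z S → (push φ Z).coeff (φ g) = Z.coeff g := fun Z hZ => by
      rw [coeff_push]
      refine Finset.sum_eq_single_of_mem g (by simp) fun b hb hne => ?_
      by_contra hc
      exact hne (hφ b g (hZ b hc) hg (mem_filter.1 hb).2)
    rw [← key X hX, ← key Y hY, h]
  · rw [not_not.1 (mt (hX g) hg), not_not.1 (mt (hY g) hg)]

lemma exists_lift (φ : H →+ G) (X : GR G) (S : H → Prop)
    (h : ∀ a, X.coeff a ≠ 0 → ∃ z, S z ∧ φ z = a) : ∃ Y : GR H, In Y S ∧ push φ Y = X := by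
  choose! z hz using h
  refine ⟨∑ a, AddMonoidAlgebra.single (z a) (X.coeff a), fun y hy => ?_, ?_⟩
  · simp only [AddMonoidAlgebra.coeff_sum, Finsupp.finsetSum_apply, AddMonoidAlgebra.coeff_single,
      Finsupp.single_apply] at hy
    obtain ⟨a, -, ha⟩ := Finset.exists_ne_zero_of_sum_ne_zero hy
    split_ifs at ha with e
    · exact e ▸ (hz a ha).1
    · exact absurd rfl ha
  · conv_rhs => rw [eq_sum X]
    rw [map_sum]
    refine Finset.sum_congr rfl fun a _ => ?_
    by_cases ha : X.coeff a = 0
    · simp [ha]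
    · rw [push_single, (hz a ha).2]

lemma push_zero {φ : G →+ H} (h : ∀ g, φ g = 0) (X : GR G) : push φ X = ((aug X : ℤ) : GR H) := by
  induction X using AddMonoidAlgebra.induction_linear with
  | zero => simp
  | add x y hx hy => simp [hx, hy]
  | single g a =>
    rw [push_single, aug_single, h]
    rfl

lemma coeff_tensor (X : GR G) (Y : GR H) (a : G) (b : H) :
    (push (AddMonoidHom.inl G H) X * push (AddMonoidHom.inr G H) Y).coeff (a, b) =
      X.coeff a * Y.coeff b := by
  induction X using AddMonoidAlgebra.induction_linear with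
  | zero => simp
  | add x y hx hy => simp [add_mul, hx, hy]
  | single g p =>
    induction Y using AddMonoidAlgebra.induction_linear with
    | zero => simp
    | add x y hx hy => simp [mul_add, hx, hy]
    | single h q =>
      rw [push_single, push_single, AddMonoidAlgebra.single_mul_single]
      simp only [AddMonoidAlgebra.coeff_single, Finsupp.single_apply]
      by_cases e : g = a <;> by_cases e' : h = b <;> simp [e, e']

lemma card_supp {E : GR G} {M c : ℤ} (h : E * cj E = (M : GR G)) (hc : ∀ g, c ∣ E.coeff g) :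
    ((univ.filter fun g => E.coeff g ≠ 0).card : ℤ) * c ^ 2 ≤ M := by
  rw [← sum_sq h, ← nsmul_eq_mul, ← Finset.sum_const]
  refine le_trans (Finset.sum_le_sum fun g hg => ?_)
    (Finset.sum_le_sum_of_subset_of_nonneg (subset_univ _) fun _ _ _ => sq_nonneg _)
  exact Int.le_of_dvd (sq_pos_of_ne_zero (mem_filter.1 hg).2)
    (pow_dvd_pow_of_dvd (hc g) 2)

end Pool.Agent.P.MP_5f6af4_co.LO
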